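import Pool.Agent.Helper14.TT.M_AllT
import Pool.Agent.Helper13.TT.M_SgnD
import Pool.Agent.Helper55.TT.M_DectD
import Pool.Agent.Helper21.TT.M_BastD
import Pool.Agent.Helper8.TT.M_CoreDof
import Pool.Agent.Helper22.TT.M_C5
import Pool.Agent.Helper53.TT.M_ItrD
import Pool.Agent.Helper69.TT.M_TriD
import Pool.Agent.Helper33.TT.M_CntD
import Pool.Agent.Helper36.TT.M_LBDof
import Pool.Agent.Helper7.TT.M_ChiD
import Pool.Agent.Helper51.TT.M_FinDof

/-!
# Project TT: assembly of the second part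
-/

set_option autoImplicit false

namespace Pool.Agent.Helper14.TT

open Pool.Agent.Helper14.CV
open Pool.Agent.Helper76.TX (LTC StLTE)

theorem lbD : LBD := by
  have hBb := Pool.Agent.Helper14.CV.hBb
  have n1 := Pool.Agent.Helper10.CV.hN1
  have hk := Pool.Agent.Helper99.CV.hHk n1
  have hkS := Pool.Agent.Helper97.CV.hHkS hk
  have far := Pool.Agent.Helper38.CV.hFar
  have plA := Pool.Agent.Helper38.CV.hPlA
  have plU := Pool.Agent.Helper7.CV.hPlU
  have edg := Pool.Agent.Helper98.CV.hEdg plA plU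
  have rel := Pool.Agent.Helper71.CV.hRel plA edg
  have ex := Pool.Agent.Helper36.CV.hEx far Pool.Agent.Helper55.CV.hFex plA
  have uni := Pool.Agent.Helper86.CV.hUni far edg
  have hkB := Pool.Agent.Helper78.CV.hHkB hk hkS
  have hkF := Pool.Agent.Helper6.CV.hHkF plA plU edg hkB
  have low0 := Pool.Agent.Helper45.CV.hLow0
  have prd := Pool.Agent.Helper7.CV.hPrd
  have sub := Pool.Agent.Helper10.CV.hSub low0 prd
  have grp := Pool.Agent.Helper26.CV.hGrp
  have lowA := Pool.Agent.Helper72.CV.hLowA low0 grp sub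
  have hk3 := Pool.Agent.Helper16.CV.hHk3 plA edg hkF
  have hk5 := Pool.Agent.Helper75.CV.hHk5 plA edg hkF
  have ld3 := Pool.Agent.Helper57.CV.hLd3 low0 grp lowA
  have ld5 := Pool.Agent.Helper47.CV.hLd5 low0 grp lowA
  have sur := Pool.Agent.Helper81.CV.hSur low0 grp lowA hBb
  have led := Pool.Agent.Helper38.CV.hLed low0 grp lowA hBb sur
  have x3 := Pool.Agent.Helper7.TT.hX3 (Pool.Agent.Helper61.TT.hNegT hBb)
    (Pool.Agent.Helper85.TT.hTree edg plA) edg plA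
  have x7a := Pool.Agent.Helper52.TT.hX7A edg plA
  have x7b := Pool.Agent.Helper84.TT.hX7B hBb low0
  have itr := Pool.Agent.Helper53.TT.hItrD x3 x7a x7b Pool.Agent.Helper22.TT.hC5 rel hkB hk3 hk5
    low0 ld3 ld5
  have tri := Pool.Agent.Helper69.TT.hTriD ex low0 hBb led itr
  have lif := Pool.Agent.Helper1.TT.hLifT rel (Pool.Agent.Helper24.CV.hLifp grp) ex uni
  exact Pool.Agent.Helper36.TT.hLBDof tri lif Pool.Agent.Helper85.TT.hUnbT
    (Pool.Agent.Helper33.TT.hCntD Pool.Agent.Helper53.TT.hCntT)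

theorem sgnD : SgnD := by
  have hk := Pool.Agent.Helper99.CV.hHk Pool.Agent.Helper10.CV.hN1
  exact Pool.Agent.Helper13.TT.hSgnD (Pool.Agent.Helper97.CV.hHkS hk)
    (Pool.Agent.Helper47.CV.hHkW hk) (Pool.Agent.Helper1.CV.hHkT hk)

theorem coreD : CoreD := by
  have hNrm := Pool.Agent.Helper14.CV.hNrm
  have com := Pool.Agent.Helper2.CV.hCom
  have lvl := Pool.Agent.Helper2.CV.hLvl hNrm
  exact Pool.Agent.Helper8.TT.hCoreDof (Pool.Agent.Helper55.TT.hDectD sgnD hNrm lvl com)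
    (Pool.Agent.Helper21.TT.hBastD sgnD hNrm) ubT lbD

/-- The theorem. -/
theorem finD : FinD := by
  obtain ⟨hC, hE⟩ := anT
  have a1 := Pool.Agent.Helper7.CV.hA1
  have a1b := Pool.Agent.Helper10.CV.hA1b a1
  have a2 := Pool.Agent.Helper55.CV.hA2 a1
  have a2c := Pool.Agent.Helper71.CV.hA2c a1
  have a3 := Pool.Agent.Helper72.CV.hA3 a1
  have a3T := Pool.Agent.Helper72.CV.hA3T a1 a1b
  have a4 := Pool.Agent.Helper26.CV.hA4 a1 a1b a3
  have p1 := Pool.Agent.Helper87.CV.hP1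
  have a6 := Pool.Agent.Helper51.TT.hA6M a1 a1b a3 Pool.Agent.Helper38.CV.hA6a
    (Pool.Agent.Helper79.CV.hA6b a1) p1
  have n1 := Pool.Agent.Helper10.CV.hN1
  have n3 := Pool.Agent.Helper16.CV.hN3 a1 a2 a2c a3 n1
  have n4 := Pool.Agent.Helper8.TT.hN4W Pool.Agent.Helper36.TT.hA8W
    Pool.Agent.Helper99.CV.hN2 n3
  exact Pool.Agent.Helper51.TT.hFinDof a4 p1 (Pool.Agent.Helper87.CV.hP2 a3 p1)
    (Pool.Agent.Helper86.CV.hP3 a2) (Pool.Agent.Helper86.CV.hP5 a3T p1) Pool.Agent.Helper2.CV.hCom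
    Pool.Agent.Helper14.CV.hNrm sgnD coreD (Pool.Agent.Helper7.TT.hChiD Pool.Agent.Helper71.TT.hChi)
    Pool.Agent.Helper36.TT.hA8W n4 Pool.Agent.Helper86.TT.hP4W a6 hC hE

end Pool.Agent.Helper14.TT
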