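import Pool.Agent.Helper14.TT.StC
import Pool.Agent.Helper76.TX.StAn

/-!
# Project TT: analytic statements and the final theorem

`IsPot f G`, `Fp`, `fz` are those of project CV, `RootNum w f` (root number `w`), `IsLTw` of
project TX. For `w = 1` the statements A8W, N4W, P4W are `StA8`, `StN4`, `StP4` of CV.
-/

set_option autoImplicit false

open UpperHalfPlane CongruenceSubgroup
open scoped MatrixGroups

namespace Pool.Agent.Helper14.TT

open Pool.Agent.Helper14.CV
open Pool.Agent.Helper76.TX (RootNum eX evX NewSymS NSS Sg IsLTw LTC StLTE tau)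

/-- `L` is the `L`-function of the twist of `f` by the quadratic character `(·/l)`, in the analytic normalisation (centre `1/2`): an entire function with
`L(s) = ∑ (m/l) a_m m^(-1/2) m^(-s)` for `Re s > 3/2`. -/
def IsTw {N : ℕ} (l : ℕ) (f : CuspForm (G0 N) 2) (L : ℂ → ℂ) : Prop :=
  Differentiable ℂ L ∧ ∀ s : ℂ, 3 / 2 < s.re →
    HasSum (fun m : ℕ => ((jacobiSym (m : ℤ) l : ℤ) : ℂ) * fc f m / (m : ℂ) ^ (1 / 2 : ℂ) / (m : ℂ) ^ s) (L s)

/-- CHI. The quadratic character modulo an odd prime as a primitive Dirichlet character (`(quadraticChar (ZMod l)).ringHomComp (Int.castRingHom ℂ)`; `jacobiSym` for a prime is `legendreSym`, which is `quadraticChar`;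
a nontrivial character modulo a prime is primitive; it is its own inverse). -/
def Chi : Prop := ∀ l : ℕ, l.Prime → l ≠ 2 → ∃ χ : DirichletCharacter ℂ l, χ.IsPrimitive ∧
  (∀ m : ℕ, χ (m : ZMod l) = ((jacobiSym (m : ℤ) l : ℤ) : ℂ)) ∧ ∀ m : ℕ, χ⁻¹ (m : ZMod l) = ((jacobiSym (m : ℤ) l : ℤ) : ℂ)

/-- A8W. The functional equation with sign `w` gives `f|W = -w f` (model: module `M_A8` of CV, Pool/Agent/Helper21/CV/M_A8.lean, with the sign `w`: `RootNum w f` gives `Λ(f,s) = w Λ(f,1-s) = w Λ(g,s)`, `g = -(N z²)⁻¹ f(-1/(Nz))`). -/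
def A8W : Prop := ∀ (w : ℤ) (N : ℕ) (_ : NeZero N) (f : CuspForm (G0 N) 2), Sg w → RootNum w f →
  ∀ z : ℂ, 0 < z.im → fz f (-1 / (N * z)) = -((w : ℂ) * (N * z ^ 2 * fz f z))

/-- N4W. A newform of level `2^n`, `n ≥ 2`, with root number `w` satisfies `f(z + 1/2) = -f(z)` (model: module `M_N4` of CV, Pool/Agent/Helper36/CV/M_N4.lean, which uses the relation of `W` only for the conjugation, so the sign drops out). -/
def N4W : Prop := ∀ (w : ℤ) (n : ℕ) (f : CuspForm (G0 (2 ^ n)) 2), Sg w → 2 ≤ n → IsNewform n f → RootNum w f →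
  ∀ z : ℂ, 0 < z.im → fz f (z + 1 / 2) = -fz f z

/-- P4W. Fricke relation for the potential (model: `M_P345` of CV, Pool/Agent/Helper86/CV/M_P345.lean). -/
def P4W : Prop := ∀ (w : ℤ) (n : ℕ) (f : CuspForm (G0 (2 ^ n)) 2) (G : ℤ → ℤ → ℂ), Sg w → IsPot f G →
  (∀ z : ℂ, 0 < z.im → fz f (-1 / (((2 ^ n : ℕ) : ℂ) * z)) =
    -((w : ℂ) * (((2 ^ n : ℕ) : ℂ) * z ^ 2 * fz f z))) →
  EqC (act 0 (-1) (2 ^ n) 0 G) (-(w • G))

/-- A6M. Maximum principle: if `G p q - G (-p) q` is constant then `f = 0`. Model: module `M_A6` of CV (Pool/Agent/Helper96/CV/M_A6.lean, with `+`): there the harmonic function is built from `Fp f z` and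
`Fp f (-conj z)` (values `G p q`, `G (-p) q` at the cusps); take the difference instead of the sum. -/
def A6M : Prop := ∀ (N : ℕ) (_ : NeZero N) (f : CuspForm (G0 N) 2) (G : ℤ → ℤ → ℂ) (k : ℂ),
  IsPot f G → (∀ p q : ℤ, (p ≠ 0 ∨ q ≠ 0) → G p q - G (-p) q = k) → f = 0

/-- FINT. The theorem: a newform `f` of weight `2`, level `2^n`, `n ≥ 3`, whose root number is `-χ(2)^n`, `χ = (·/l)`, `l = 3` modulo `8` or `l = 7`: the twist has nonzero central value. -/
def FinT : Prop := ∀ (l n : ℕ) (f : CuspForm (G0 (2 ^ n)) 2), Okl l → 3 ≤ n → IsNewform n f → RootNum (wT l n) f →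
  (∃ L : ℂ → ℂ, IsTw l f L) ∧ ∀ L : ℂ → ℂ, IsTw l f L → L (1 / 2) ≠ 0

/-- The existence statement of TX (the content of `StLTE`). -/
def LTE : Prop := ∀ (N : ℕ) (_ : NeZero N) (f : CuspForm (G0 N) 2) (D : ℕ)
  (_ : NeZero D) (χ : DirichletCharacter ℂ D), χ.IsPrimitive → ∃ L : ℂ → ℂ, IsLTw χ f L

/-- FINTOF. Proof (model: module `M_Final` of CV, Pool/Agent/Helper19/CV/M_Final.lean). `χ` from CHI; `IsTw l f L` is `IsLTw χ f L` (the same series), so LTE gives existence. Let `L(1/2) = 0`, `G` the potential of `f` (A4). LTC gives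
`eX l G = ∑ χ⁻¹(u) (G u l - G 1 0) = 0`. `G` is a symbol of level `2^n` (P2), an eigenvector of `T_3`, `T_5` away from the origin (P3, HeckeEig from `IsNewform`), so `evX l G = 0` (all `T_3^i T_5^j G` are multiples of `G` away from the origin; `eX` only sees
nonzero vectors). `w = wT l n` is `1` or `-1` (`Sg`). P4W with A8W: `G∘W ≈ -w G`; P5 with N4W: `G∘t ≈ -G`; hence `G∘σ ≈ -G` as in `M_Final` (`σ = W t^{±1} W⁻¹` up to scalars; two signs `w` cancel). `K p q = G p q - G (-p) q`, that is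
`K = G - act (-1) 0 0 1 G`, is a `NewSymS n w (-1)` (`*` commutes with `W`, `t`, `σ` up to constants: COM; NRM), and `evX l K = 2 evX l G = 0` by SGN (or directly). CORET: `EqC K 0`, so `K` is constant away from the origin and `f = 0` by A6M, against `fc f 1 = 1`. -/
def FinTof : Prop := StA4 → StP1 → StP2 → StP3 → StP5 → StCom → StNrm → Sgn → CoreT → Chi → A8W → N4W → P4W → A6M → LTC → LTE → FinT

end Pool.Agent.Helper14.TT
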