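import Pool.Agent.Helper76.TX.Defs

/-!
# Project TT: twisted central values of ALL newforms of level `2^n` (odd characters). Definitions

`l` is a prime, `l = 3` modulo `8` or `l = 7`, `χ(a) = jacobiSym a l`, an odd character. The twisted
path is the sum of `χ(a)` times the path from `∞` to `a/l` (`Pool.Agent.Helper76.TX.eX`). It is sent to
`-` itself by `*` and to `χ(2)^n` times itself by `W = (0 -1; 2^n 0)`, so it sees the newforms of root
number `-χ(2)^n`. `NewSymS n w ε`, `NSS n w ε`: new symbols with `W = -w`, `* = ε` (here `ε = -1`).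
-/

set_option autoImplicit false

namespace Pool.Agent.Helper14.TT

open Pool.Agent.Helper14.CV
open Pool.Agent.Helper76.TX (RootNum eX evX NewSymS NSS BalES BalOS antiES antiOS antiFS Sg)

/-- The root number of the newforms of level `2^n` seen by the character: `-χ(2)^n`. -/
def wT (l n : ℕ) : ℤ := -(jacobiSym 2 l) ^ n

/-- The dimension bound for new symbols with `W = -w`, `* = -1` (for even `n` only `w = -1` occurs). -/
def dT (w : ℤ) (n : ℕ) : ℕ :=
  if n ≤ 4 then 0
  else if n % 2 = 0 then 2 ^ (n / 2 - 3) * (2 ^ (n / 2 - 3) - 1)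
  else if w = 1 then 2 ^ (n / 2 - 2) * (2 ^ (n / 2 - 2) + 1) / 2
  else 2 ^ (n / 2 - 2) * (2 ^ (n / 2 - 2) - 1) / 2

/-- `∑_{m ≤ n} dT m`. -/
def DT (l n : ℕ) : ℕ := ∑ m ∈ Finset.range (n + 1), dT (wT l m) m

/-- The twisted path in balanced coordinates (`m = 2^r`): the sum of `χ(a)` times the path from `∞` to `m a/l`. -/
def eXb {R : Type} [AddCommGroup R] (l : ℕ) (m : ℤ) (G : ℤ → ℤ → R) : R :=
  ∑ a ∈ Finset.range l, jacobiSym (a : ℤ) l • (G (m * a) l - G 1 0)

/-- The value at `T_3^i T_5^j` of the twisted path. -/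
def evXb {R : Type} [AddCommGroup R] (l : ℕ) (m : ℤ) (G : ℤ → ℤ → R) (i j : ℕ) : R :=
  eXb l m ((Tl 3 m)^[i] ((Tl 5 m)^[j] G))

/-- The shift of the index of `T_5`: modulo `2` the twisted path is `T_3` times the central path plus higher terms
if `l = 3` modulo `8`, and `T_3 T_5` times the central path plus higher terms if `l = 7`. -/
def sh (l : ℕ) : ℕ := if l = 7 then 1 else 0

/-- The primes of the theorem. -/
def Okl (l : ℕ) : Prop := l.Prime ∧ (l % 8 = 3 ∨ l = 7)

end Pool.Agent.Helper14.TT
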