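import Pool.Agent.Helper1.CV.M_HkT
import Pool.Agent.Helper2.CV.M_Com
import Pool.Agent.Helper2.CV.M_Lvl
import Pool.Agent.Helper6.CV.M_HkF
import Pool.Agent.Helper7.CV.M_A1
import Pool.Agent.Helper7.CV.M_PlU
import Pool.Agent.Helper7.CV.M_Prd
import Pool.Agent.Helper10.CV.M_A1b
import Pool.Agent.Helper10.CV.M_N1
import Pool.Agent.Helper10.CV.M_Sub
import Pool.Agent.Helper14.CV.M_Bb
import Pool.Agent.Helper14.CV.M_Nrm
import Pool.Agent.Helper16.CV.M_Hk3
import Pool.Agent.Helper16.CV.M_N3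
import Pool.Agent.Helper24.CV.M_Lifp
import Pool.Agent.Helper26.CV.M_A4
import Pool.Agent.Helper26.CV.M_Grp
import Pool.Agent.Helper36.CV.M_Ex
import Pool.Agent.Helper38.CV.M_A6a
import Pool.Agent.Helper38.CV.M_Far
import Pool.Agent.Helper38.CV.M_Led
import Pool.Agent.Helper38.CV.M_PlA
import Pool.Agent.Helper45.CV.M_Low0
import Pool.Agent.Helper47.CV.M_HkW
import Pool.Agent.Helper47.CV.M_Ld5
import Pool.Agent.Helper55.CV.M_A2
import Pool.Agent.Helper55.CV.M_Fex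
import Pool.Agent.Helper57.CV.M_Ld3
import Pool.Agent.Helper71.CV.M_A2c
import Pool.Agent.Helper71.CV.M_Rel
import Pool.Agent.Helper72.CV.M_A3
import Pool.Agent.Helper72.CV.M_LowA
import Pool.Agent.Helper75.CV.M_Ev
import Pool.Agent.Helper75.CV.M_Hk5
import Pool.Agent.Helper78.CV.M_HkB
import Pool.Agent.Helper79.CV.M_A6b
import Pool.Agent.Helper81.CV.M_Sur
import Pool.Agent.Helper86.CV.M_P345
import Pool.Agent.Helper86.CV.M_Uni
import Pool.Agent.Helper87.CV.M_P12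
import Pool.Agent.Helper92.CV.M_Itr
import Pool.Agent.Helper97.CV.M_HkS
import Pool.Agent.Helper98.CV.M_Edg
import Pool.Agent.Helper99.CV.M_Hk
import Pool.Agent.Helper99.CV.M_N2
import Pool.Agent.Helper61.TX.M_AN1
import Pool.Agent.Helper7.TX.M_AN2
import Pool.Agent.Helper29.TX.M_AN3
import Pool.Agent.Helper13.TX.M_AN4
import Pool.Agent.Helper55.TX.M_AN5
import Pool.Agent.Helper42.TX.M_AN6
import Pool.Agent.Helper80.TX.M_LTE
import Pool.Agent.Helper92.TX.M_LTC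
import Pool.Agent.Helper71.TT.M_BalS
import Pool.Agent.Helper36.TT.M_E1S
import Pool.Agent.Helper66.TT.M_DimES
import Pool.Agent.Helper29.TT.M_O1S
import Pool.Agent.Helper4.TT.M_RmapS
import Pool.Agent.Helper99.TT.M_DimOS
import Pool.Agent.Helper76.TT.M_DimFS
import Pool.Agent.Helper35.TT.M_KerOS
import Pool.Agent.Helper42.TT.M_UBTof
import Pool.Agent.Helper12.TT.M_Sgn
import Pool.Agent.Helper47.TT.M_Dect
import Pool.Agent.Helper86.TT.M_Bast
import Pool.Agent.Helper67.TT.M_CoreTof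
import Pool.Agent.Helper61.TT.M_NegT
import Pool.Agent.Helper85.TT.M_Tree
import Pool.Agent.Helper7.TT.M_X3
import Pool.Agent.Helper52.TT.M_X7A
import Pool.Agent.Helper84.TT.M_X7B
import Pool.Agent.Helper69.TT.M_ItrT
import Pool.Agent.Helper39.TT.M_TriT
import Pool.Agent.Helper1.TT.M_LifT
import Pool.Agent.Helper85.TT.M_UnbT
import Pool.Agent.Helper53.TT.M_CntT
import Pool.Agent.Helper11.TT.M_LBTof
import Pool.Agent.Helper71.TT.M_Chi
import Pool.Agent.Helper36.TT.M_A8W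
import Pool.Agent.Helper8.TT.M_N4W
import Pool.Agent.Helper86.TT.M_P4W
import Pool.Agent.Helper51.TT.M_A6M
import Pool.Agent.Helper32.TT.M_FinTof

/-!
# Project TT: assembly
-/

set_option autoImplicit false

namespace Pool.Agent.Helper14.TT

open Pool.Agent.Helper14.CV
open Pool.Agent.Helper76.TX (LTC StLTE)

theorem ubT : UBT :=
  Pool.Agent.Helper42.TT.hUBTof Pool.Agent.Helper71.TT.hBalS
    (Pool.Agent.Helper36.TT.hE1S Pool.Agent.Helper38.CV.hFar Pool.Agent.Helper38.CV.hPlA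
      (Pool.Agent.Helper98.CV.hEdg Pool.Agent.Helper38.CV.hPlA Pool.Agent.Helper7.CV.hPlU))
    Pool.Agent.Helper66.TT.hDimES Pool.Agent.Helper35.TT.hDimE2 Pool.Agent.Helper29.TT.hO1S
    (Pool.Agent.Helper35.TT.hKerOS Pool.Agent.Helper4.TT.hRmapS Pool.Agent.Helper99.TT.hDimOS
      Pool.Agent.Helper76.TT.hDimFS) Pool.Agent.Helper35.TT.hDimO2

theorem lbT : LBT := by
  have hBb := Pool.Agent.Helper14.CV.hBb
  have n1 := Pool.Agent.Helper10.CV.hN1
  have hk := Pool.Agent.Helper99.CV.hHk n1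
  have hkS := Pool.Agent.Helper97.CV.hHkS hk
  have far := Pool.Agent.Helper38.CV.hFar
  have plA := Pool.Agent.Helper38.CV.hPlA
  have plU := Pool.Agent.Helper7.CV.hPlU
  have edg := Pool.Agent.Helper98.CV.hEdg plA plU
  have rel := Pool.Agent.Helper71.CV.hRel plA edg
  have ex := Pool.Agent.Helper36.CV.hEx far Pool.Agent.Helper55.CV.hFex plA
  have uni := Pool.Agent.Helper86.CV.hUni far edg
  have hkB := Pool.Agent.Helper78.CV.hHkB hk hkS
  have hkF := Pool.Agent.Helper6.CV.hHkF plA plU edg hkB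
  have low0 := Pool.Agent.Helper45.CV.hLow0
  have prd := Pool.Agent.Helper7.CV.hPrd
  have sub := Pool.Agent.Helper10.CV.hSub low0 prd
  have grp := Pool.Agent.Helper26.CV.hGrp
  have lowA := Pool.Agent.Helper72.CV.hLowA low0 grp sub
  have hk3 := Pool.Agent.Helper16.CV.hHk3 plA edg hkF
  have hk5 := Pool.Agent.Helper75.CV.hHk5 plA edg hkF
  have ld3 := Pool.Agent.Helper57.CV.hLd3 low0 grp lowA
  have ld5 := Pool.Agent.Helper47.CV.hLd5 low0 grp lowA
  have sur := Pool.Agent.Helper81.CV.hSur low0 grp lowA hBb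
  have led := Pool.Agent.Helper38.CV.hLed low0 grp lowA hBb sur
  have x3 := Pool.Agent.Helper7.TT.hX3 (Pool.Agent.Helper61.TT.hNegT hBb)
    (Pool.Agent.Helper85.TT.hTree edg plA) edg plA
  have x7a := Pool.Agent.Helper52.TT.hX7A edg plA
  have x7b := Pool.Agent.Helper84.TT.hX7B hBb low0
  have itr := Pool.Agent.Helper69.TT.hItrT x3 x7a x7b rel hkB hk3 hk5 low0 ld3 ld5
  have tri := Pool.Agent.Helper39.TT.hTriT ex low0 hBb led itr
  have lif := Pool.Agent.Helper1.TT.hLifT rel (Pool.Agent.Helper24.CV.hLifp grp) ex uni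
  exact Pool.Agent.Helper11.TT.hLBTof tri lif Pool.Agent.Helper85.TT.hUnbT
    Pool.Agent.Helper53.TT.hCntT

theorem sgnT : Sgn := by
  have hk := Pool.Agent.Helper99.CV.hHk Pool.Agent.Helper10.CV.hN1
  exact Pool.Agent.Helper12.TT.hSgn (Pool.Agent.Helper97.CV.hHkS hk)
    (Pool.Agent.Helper47.CV.hHkW hk) (Pool.Agent.Helper1.CV.hHkT hk)

theorem coreT : CoreT := by
  have hNrm := Pool.Agent.Helper14.CV.hNrm
  have com := Pool.Agent.Helper2.CV.hCom
  have lvl := Pool.Agent.Helper2.CV.hLvl hNrm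
  exact Pool.Agent.Helper67.TT.hCoreTof (Pool.Agent.Helper47.TT.hDect sgnT hNrm lvl com)
    (Pool.Agent.Helper86.TT.hBast sgnT Pool.Agent.Helper38.CV.hFar hNrm) ubT lbT

/-- The analytic statements of project TX. -/
theorem anT : LTC ∧ LTE := by
  have a1 := Pool.Agent.Helper7.CV.hA1
  have n1 := Pool.Agent.Helper61.TX.hAN1
  have n3 := Pool.Agent.Helper29.TX.hAN3
  have n5 : Pool.Agent.Helper76.TX.AN5 :=
    Pool.Agent.Helper55.TX.hAN5 Pool.Agent.Helper13.TX.hAN4 a1 n3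
  have n6 : Pool.Agent.Helper76.TX.AN6 :=
    Pool.Agent.Helper42.TX.hAN6 a1 n1 Pool.Agent.Helper7.TX.hAN2
  exact ⟨Pool.Agent.Helper92.TX.hLTC n5 n6 n3, Pool.Agent.Helper80.TX.hLTE n5 n6 n3⟩

/-- The theorem. -/
theorem finT : FinT := by
  obtain ⟨hC, hE⟩ := anT
  have a1 := Pool.Agent.Helper7.CV.hA1
  have a1b := Pool.Agent.Helper10.CV.hA1b a1
  have a2 := Pool.Agent.Helper55.CV.hA2 a1
  have a2c := Pool.Agent.Helper71.CV.hA2c a1
  have a3 := Pool.Agent.Helper72.CV.hA3 a1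
  have a3T := Pool.Agent.Helper72.CV.hA3T a1 a1b
  have a4 := Pool.Agent.Helper26.CV.hA4 a1 a1b a3
  have p1 := Pool.Agent.Helper87.CV.hP1
  have a6 := Pool.Agent.Helper51.TT.hA6M a1 a1b a3 Pool.Agent.Helper38.CV.hA6a
    (Pool.Agent.Helper79.CV.hA6b a1) p1
  have n1 := Pool.Agent.Helper10.CV.hN1
  have n3 := Pool.Agent.Helper16.CV.hN3 a1 a2 a2c a3 n1
  have n4 := Pool.Agent.Helper8.TT.hN4W Pool.Agent.Helper36.TT.hA8W
    Pool.Agent.Helper99.CV.hN2 n3
  exact Pool.Agent.Helper32.TT.hFinTof a4 p1 (Pool.Agent.Helper87.CV.hP2 a3 p1)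
    (Pool.Agent.Helper86.CV.hP3 a2) (Pool.Agent.Helper86.CV.hP5 a3T p1) Pool.Agent.Helper2.CV.hCom
    Pool.Agent.Helper14.CV.hNrm sgnT coreT Pool.Agent.Helper71.TT.hChi
    Pool.Agent.Helper36.TT.hA8W n4 Pool.Agent.Helper86.TT.hP4W a6 hC hE

end Pool.Agent.Helper14.TT
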