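import Pool.Agent.Helper14.TT.StU

/-!
# Project TT: signs of the twisted path and the dimension chain
-/

set_option autoImplicit false

namespace Pool.Agent.Helper14.TT

open Pool.Agent.Helper14.CV
open Pool.Agent.Helper76.TX (RootNum eX evX NewSymS NSS BalES BalOS antiES antiOS antiFS Sg)

/-- SGN. Signs of the twisted path (`l` prime, `l = 3` modulo `4`, `c = (2/l)`, `N = 2^n`). Proof for `eX` (word empty), `G` a symbol of level `2^n`: the sum of the characters over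
`a < l` is `0`, so `eX l G = ∑_a χ(a) G a l`. `*`: `G (-a) l = G (l - a) l` (translation by `1`, fixes `∞`, no constant: `Sym` at `(1 1; 0 1)`), `χ(-a) = -χ(a)`. `W = (0 -1; N 0)`:
`(G∘W)(a, l) = G(-l, N a)`; let `a'` be the inverse of `-N a` modulo `l`, `N a a' + 1 = -l d`; `γ = (-l, a'; N a, d)` has determinant `1` and is in `Γ₀(N)`, `γ ∞ = (-l, N a)`,
`γ (a', l) = (0, -1)`; so `G(-l, N a) = G(1,0) + G(0,1) - G(a', l)`, and `χ(a) = χ(-1) χ(N) χ(a') = -c^n χ(a')`; sum over `a` (`a ↦ a'` is a bijection of the nonzero residues, `G(a', l)` depends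
only on `a'` modulo `l`): `eX l (G∘W) = c^n eX l G`. Words: `T_3`, `T_5` commute with `W` and `*` up to constants and preserve symbols (`hHkW`, `hHkT`, `hHkS` of CV, `EqC.Tl`; model: module `M_Ev`),
`eX_congr`. `l = 3` is allowed. -/
def Sgn : Prop := ∀ (l n : ℕ) (G : ℤ → ℤ → ℂ), l.Prime → l % 4 = 3 → 2 ≤ n → Sym 0 n G →
  evX l (act 0 (-1) (2 ^ n) 0 G) = ((jacobiSym 2 l : ℤ) ^ n : ℤ) • evX l G ∧
  evX l (act (-1) 0 0 1 G) = -evX l G

/-- DECT. Decomposition: every symbol of level `2^n` (`n ≥ 3`) has the same twisted values as a symbol of level `2^(n-1)` plus a new symbol with `W = c^n`, `* = -1`, `c = (2/l)`.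
Model: module `M_B3a` (`StB3a`). Put `A = (G + G∘t)/2`, `B = (G - G∘t)/2`, `C = (B + B∘σ)/2`, `E = (B - B∘σ)/2`, `F = (E + c^n E∘W)/2`, `G1 = (F - F∘*)/2`. By COM, NRM, LVL of CV `A∘W` and `C` have
level `2^(n-1)` and `G1` is a new symbol; by SGN `evX A = c^n evX (A∘W)`, `evX E = evX F = evX G1`; so `G0 = C + c^n A∘W`. -/
def Dect : Prop := ∀ (l n : ℕ) (G : ℤ → ℤ → ℂ), l.Prime → l % 4 = 3 → 3 ≤ n → Sym 0 n G →
  ∃ G0 G1 : ℤ → ℤ → ℂ, Sym 0 (n - 1) G0 ∧ NewSymS n (wT l n) (-1) G1 ∧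
    evX l G = evX l G0 + evX l G1

/-- BAST. Level 4: all twisted values vanish. By SGN `evX G = evX K`, `K = (G - G∘*)/2`, `K∘* ≈ -K`, a symbol of level `4` (NRM). Such a `K` is constant (then `evX K = evX 0 = 0` by `evX_congr`): `K∘* = -K + c`
away from the origin, so `K(1,0) = K(-1,0) = c - K(1,0)`, the same at `(0,1)`, and `K(-1,2) = K(1,2)` (translation by `1`, which fixes `∞`), so `K(1,2) = K(1,0) = K(0,1) = c/2`; `K(±1,1) = K(0,1)` (translation by `1`),
`K(±1,3) = K(∓1,1)` (`(1 0; 4 1)` fixes `0`, so no constant). By FAR it is enough that `K(g ∞) = K(g 0)`, `g` in `SL₂(ℤ)`; the constants of `Γ₀(4)` cancel on edges, so only for the six representatives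
`1, S, ST, ST², ST³, (1 0; 2 1)`, with cusps `∞, 0, ±1, ±1/2, ±1/3` (model: module `M_B3b`). -/
def Bast : Prop := ∀ (l : ℕ) (G : ℤ → ℤ → ℂ), l.Prime → l % 4 = 3 → Sym 0 2 G → evX l G = 0

/-- LBT. The twisted values of the symbols of level `2^n` (`n ≥ 5`) span a space of dimension at least `DT l n`. -/
def LBT : Prop := ∀ (l n : ℕ), Okl l → 5 ≤ n → ∃ G : Fin (DT l n) → (ℤ → ℤ → ℂ),
  (∀ k, Sym 0 n (G k)) ∧ LinearIndependent ℂ (fun k => evX l (G k))

/-- CORET. A new symbol of level `2^n` (`W = c^n`, `* = -1`) whose twisted values vanish is constant. -/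
def CoreT : Prop := ∀ (l n : ℕ) (G : ℤ → ℤ → ℂ), Okl l → 3 ≤ n → NewSymS n (wT l n) (-1) G →
  evX l G = 0 → EqC G 0

/-- CORETOF. For `n = 3, 4` from UBT (`dT = 0`). For `n ≥ 5` as in `M_CoreOf` of CV: let `V m = (XS m).map (evX l)`; `V 2 = 0` by BAST, `V m ≤ V (m-1) ⊔ (NSS m (wT l m) (-1)).map (evX l)` by DECT,
`finrank ((NSS m ..).map (evX l)) ≤ dT (wT l m) m` by UBT (`evX_congr`; `wT l m = -1`, or `wT l m = 1` and `m` odd, because `(2/l) = -1` or `1`), and `≤ dT - 1` if the core fails at `m`; sum up, against LBT. -/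
def CoreTof : Prop := Dect → Bast → UBT → LBT → CoreT

end Pool.Agent.Helper14.TT
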