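import Pool.Agent.Helper14.TT.StL
import Pool.Agent.Helper14.TT.StF

/-!
# Project TT, second part: composite conductors `D = 5 l`

`D = 3` modulo `4`, `χ(a) = jacobiSym a D`, an odd character. For `D = 5 l`, `l` a prime, `l = 3` modulo `8`, the twisted path is modulo `2`
the twisted path of `l` applied to `T_5 G`, so its leading form is `L3 * L5` as for `D = 7`. The statements are those of
`StC`, `StL`, `StF` with `l` replaced by `D`.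
-/

set_option autoImplicit false

open UpperHalfPlane CongruenceSubgroup
open scoped MatrixGroups

namespace Pool.Agent.Helper14.TT

open Pool.Agent.Helper14.CV
open Pool.Agent.Helper76.TX (RootNum eX evX NewSymS NSS BalES BalOS antiES antiOS antiFS Sg IsLTw LTC StLTE tau)

/-- The conductors of the theorem: primes `3` modulo `8`, `7`, and `5 l` with a prime `l = 3` modulo `8`. -/
def Okd (D : ℕ) : Prop :=
  (D.Prime ∧ D % 8 = 3) ∨ D = 7 ∨ ∃ l : ℕ, l.Prime ∧ l % 8 = 3 ∧ D = 5 * l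

/-- The shift of the index of `T_5`. -/
def shd (D : ℕ) : ℕ := if D % 8 = 7 then 1 else 0

/-- SGND. As `Sgn` (module `M_Sgn`) for every `D = 3` modulo `4`: `χ(a) = jacobiSym a D` is `0` if `a` is not coprime to `D`, `χ(-1) = -1`, the sum of `χ(a)` over `a < D` is `0`, `a ↦ a'` (`N a a' ≡ -1` modulo `D`) is a bijection of the residues coprime to `D`,
`χ(a) = χ(-1) χ(N) χ(a')`. -/
def SgnD : Prop := ∀ (D n : ℕ) (G : ℤ → ℤ → ℂ), D % 4 = 3 → 2 ≤ n → Sym 0 n G →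
  evX D (act 0 (-1) (2 ^ n) 0 G) = ((jacobiSym 2 D : ℤ) ^ n : ℤ) • evX D G ∧
  evX D (act (-1) 0 0 1 G) = -evX D G

/-- DECTD. As `Dect` (module `M_Dect`). -/
def DectD : Prop := ∀ (D n : ℕ) (G : ℤ → ℤ → ℂ), D % 4 = 3 → 3 ≤ n → Sym 0 n G →
  ∃ G0 G1 : ℤ → ℤ → ℂ, Sym 0 (n - 1) G0 ∧ NewSymS n (wT D n) (-1) G1 ∧
    evX D G = evX D G0 + evX D G1

/-- BASTD. As `Bast` (module `M_Bast`). -/
def BastD : Prop := ∀ (D : ℕ) (G : ℤ → ℤ → ℂ), D % 4 = 3 → Sym 0 2 G → evX D G = 0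

/-- LBD. As `LBT`. -/
def LBD : Prop := ∀ (D n : ℕ), Okd D → 5 ≤ n → ∃ G : Fin (DT D n) → (ℤ → ℤ → ℂ),
  (∀ k, Sym 0 n (G k)) ∧ LinearIndependent ℂ (fun k => evX D (G k))

/-- CORED. As `CoreT`. -/
def CoreD : Prop := ∀ (D n : ℕ) (G : ℤ → ℤ → ℂ), Okd D → 3 ≤ n → NewSymS n (wT D n) (-1) G →
  evX D G = 0 → EqC G 0

/-- CORED from DECTD, BASTD, UBT, LBD (as `CoreTof`, module `M_CoreTof`; `D % 4 = 3` for all `D` with `Okd D`). -/
def CoreDof : Prop := DectD → BastD → UBT → LBD → CoreD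

/-- C5. The composite conductor. Modulo `2`: `eXb (5 l) m G = eXb l m (T_5 G)`, `m = 2^(r+1)`. Proof. In `ZMod 2` the coefficient `jacobiSym a D` is `1` if `a` is coprime to `D` and `0` otherwise. `T_5 G (p,q) = G(5p, q) + ∑_{j<5} G(p + m j q, 5q)`;
`∑_{0<a<l} G(5 m a, l) = ∑_{0<a<l} G(m a, l)` (`a ↦ 5a` modulo `l`; `G(m a, l)` depends only on `a` modulo `l`, as `(1 m; 0 1)` is in the group and fixes `∞`). `a + j l`, `0 < a < l`, `j < 5`, runs over the `b < 5l` not divisible by `l`: those coprime to `5l`, and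
`b = 5b'`, `0 < b' < l`, with `G(m 5b', 5l) = G(m b', l)`. So `∑_a T_5 G(m a, l)` is the sum of `G(m b, 5l)` over the `b` coprime to `5l` plus two equal sums; the numbers of terms `6(l-1)` and `4(l-1)` are even, so `G(1,0)` and `T_5 G(1,0)` do not matter. -/
def C5 : Prop := ∀ (l r s : ℕ) (G : ℤ → ℤ → ZMod 2), l.Prime → l % 8 = 3 → Sym (r + 1) (s + 1) G →
  eXb (5 * l) (2 ^ (r + 1)) G = eXb l (2 ^ (r + 1)) (Tl 5 (2 ^ (r + 1)) G)

/-- ITRD (as `ItrT`, module `M_ItrT`; for `D = 5 l` use C5 for `h = T_3^i T_5^j G` and X3 for `T_5 h`: `F1(T_5 h) ≡ L5 F1(h)` modulo lower degree, `step5` of `Pool.Agent.Helper92.CV`, module `M_Itr`). -/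
def ItrD : Prop := ∀ (D r s : ℕ) (G : ℤ → ℤ → ZMod 2) (F1 : Fn (2 ^ r) (2 ^ s)) (d : ℕ), Okd D → 1 ≤ r → 1 ≤ s → 3 ≤ r + s →
  Sym (r + 1) (s + 1) G → (∀ x y, F1 x y = edgeF 1 1 0 0 1 G x y) → F1 ∈ Wd (d : ℤ) → ∀ i j : ℕ,
  (d < 3 * (i + 1) + 4 * (j + shd D) → evXb D (2 ^ (r + 1)) G i j = 0) ∧
  (3 * (i + 1) + 4 * (j + shd D) = d → evXb D (2 ^ (r + 1)) G i j =
    ((L3 ^ (i + 1) * L5 ^ (j + shd D) : Module.End (ZMod 2) (Fn (2 ^ r) (2 ^ s))) F1) 0 0)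

/-- TRID (as `TriT`, module `M_TriT`). -/
def TriD : Prop := ∀ (D r s i' j' : ℕ), Okd D → 1 ≤ s → 3 ≤ r + s → 1 ≤ i' → shd D ≤ j' → 2 * i' + 2 * j' + 1 < 2 ^ r → i' + 2 * j' < 2 ^ s →
  ∃ G : ℤ → ℤ → ZMod 2, Sym (r + 1) (s + 1) G ∧ evXb D (2 ^ (r + 1)) G (i' - 1) (j' - shd D) = 1 ∧
    ∀ i j : ℕ, evXb D (2 ^ (r + 1)) G i j ≠ 0 →
      (3 * (i + 1) + 4 * (j + shd D) < 3 * i' + 4 * j' ∨
        (3 * (i + 1) + 4 * (j + shd D) = 3 * i' + 4 * j' ∧ (i + 1) + 2 * (j + shd D) ≤ i' + 2 * j'))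

/-- CNTD (as `CntT`, module `M_CntT`; `jacobiSym 2 D` depends only on `D` modulo `8`: `-1` for `3`, `1` for `7`; so it can be deduced from `CntT` at `l = 3` and `l = 7`: `DT D n = DT 3 n` or `DT 7 n`). -/
def CntD : Prop :=
  (∀ D k : ℕ, Okd D → 3 ≤ k → ((Finset.range (2 ^ k) ×ˢ Finset.range (2 ^ k)).filter fun t : ℕ × ℕ =>
    2 * t.1 + 2 * t.2 + 1 < 2 ^ (k - 1) ∧ t.1 + 2 * t.2 < 2 ^ (k - 1) ∧ 1 ≤ t.1 ∧ shd D ≤ t.2).card = DT D (2 * k)) ∧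
  (∀ D k : ℕ, Okd D → 2 ≤ k → ((Finset.range (2 ^ (k + 1)) ×ˢ Finset.range (2 ^ (k + 1))).filter
    fun t : ℕ × ℕ => 2 * t.1 + 2 * t.2 + 1 < 2 ^ k ∧ t.1 + 2 * t.2 < 2 ^ (k - 1) ∧ 1 ≤ t.1 ∧ shd D ≤ t.2).card =
    DT D (2 * k + 1))

/-- LBDOF (as `LBTof`, module `M_LBTof`). -/
def LBDof : Prop := TriD → LifT → UnbT → CntD → LBD

/-- CHID. For an odd squarefree `D > 1` the Jacobi symbol is a primitive Dirichlet character modulo `D` and its own inverse. Only `D` with `Okd D` is needed: for prime `D` this is `Chi` (module `M_Chi`). For `D = 5 l`: the character is nontrivial on the residues that are `1` modulo `l` and on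
those that are `1` modulo `5`, so it does not factor through `ZMod l`, `ZMod 5` or `ZMod 1`. -/
def ChiD : Prop := ∀ D : ℕ, Okd D → ∃ χ : DirichletCharacter ℂ D, χ.IsPrimitive ∧
  (∀ m : ℕ, χ (m : ZMod D) = ((jacobiSym (m : ℤ) D : ℤ) : ℂ)) ∧ ∀ m : ℕ, χ⁻¹ (m : ZMod D) = ((jacobiSym (m : ℤ) D : ℤ) : ℂ)

/-- FIND. As `FinT`. -/
def FinD : Prop := ∀ (D n : ℕ) (f : CuspForm (G0 (2 ^ n)) 2), Okd D → 3 ≤ n → IsNewform n f → RootNum (wT D n) f →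
  (∃ L : ℂ → ℂ, IsTw D f L) ∧ ∀ L : ℂ → ℂ, IsTw D f L → L (1 / 2) ≠ 0

/-- FINDOF (as `FinTof`, module `M_FinTof`). -/
def FinDof : Prop := StA4 → StP1 → StP2 → StP3 → StP5 → StCom → StNrm → SgnD → CoreD → ChiD → A8W → N4W → P4W → A6M → LTC → LTE → FinD

end Pool.Agent.Helper14.TT
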