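import Pool.Agent.Helper14.TT.StC

/-!
# Project TT: lower bound

Everything modulo `2`, plane `ZMod (2^r) × ZMod (2^s)`, symbols of level `(r+1, s+1)`, `F1 = edgeF 1 1 0 0 1 G`
(`F1(g) = G(g∞) - G(g0)`, `g = (a 2b; 2c d)`, coordinates `x = b/a`, `y = c/d`). Modulo `2` the signs `χ(a)` do not
matter: `eXb` is the sum of the values on the paths from `∞` to `2^(r+1) a/l`, `0 < a < l`.
-/

set_option autoImplicit false

namespace Pool.Agent.Helper14.TT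

open Pool.Agent.Helper14.CV
open Pool.Agent.Helper76.TX (RootNum eX evX NewSymS NSS BalES BalOS antiES antiOS antiFS Sg)

/-- The parity of the lift. -/
def par {q : ℕ} (x : ZMod q) : ZMod 2 := ((x.val : ℕ) : ZMod 2)

/-- NEG. For `F` of degree at most `3` (`r, s ≥ 1`) the function `F(x,y) + F(-x,-y)` is `α xy + β x + γ y` with parities, `α = (L3 F)(0,0)`, `L3 = dx dy (dx + dy)`. Proof: BB (`hBb`): `F` is the sum of
`c_ij bb i j`, `i + j ≤ 3`, `c_ij = (dx^i dy^j F)(0,0)` (`= 0` for `i + j > 3`). Modulo `2`: `C(-x,1) = x`, `C(-x,2) = C(x,2) + x`, `C(-x,3) = C(x,3) + x` (for the lifts in `[0, 2^r)`, `i < 2^r`; if `2^r = 2` only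
`i ≤ 1` occurs), so `bb(3,0) ↦ x`, `bb(2,1) ↦ xy`, `bb(1,2) ↦ xy`, `bb(0,3) ↦ y`, `bb(2,0) ↦ x`, `bb(0,2) ↦ y`, the others to `0`. -/
def NegT : Prop := ∀ (r s : ℕ) (F : Fn (2 ^ r) (2 ^ s)), 1 ≤ r → 1 ≤ s → F ∈ Wd 3 →
  ∃ β γ : ZMod 2, ∀ x y, F x y + F (-x) (-y) =
    ((L3 : Module.End (ZMod 2) (Fn (2 ^ r) (2 ^ s))) F) 0 0 * (par x * par y) + β * par x + γ * par y

/-- TREE. A symbol `H` modulo 2 with `F1(H) = α xy + β x + γ y` (parities, `r, s ≥ 1`): for coprime `p, q`, `p` even, `q` odd: `H(p,q) = H(1,0) + α (q²-1)/8 + β p/2`, for `p` odd, `q` even: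
`H(p,q) = H(1,0) + α (p²-1)/8 + γ q/2`. Proof. Call the right hand side `E(p,q)`. For `g = (a 2b; 2c d)` of determinant `1` EDG gives `H(a,2c) - H(2b,d) = α bc + β b + γ c` (`a`, `d` odd, so `x = b/a ≡ b`, `y ≡ c`
modulo `2`), and `(ad)² = (1 + 4bc)²`, `(a²-1)/8 + (d²-1)/8 ≡ bc` modulo `2`, so `E` satisfies the same relation: `H = E` at `(a,2c)` if and only if at `(2b,d)`. Strong induction on `|q|`: `q = 0`: `(±1, 0)`;
`|q| = 1`: the edge to `(1,0)`. `|q| ≥ 2`: choose `(p',q')` with `p q' - q p' = ±1`, `|q'| < |q|` and `p' q'` even: there is a solution with `0 < q' < q` and one with `q' - q`, and for `q` odd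
one of `q'`, `q' - q` is even, for `q` even (`p` odd) one of `p'`, `p' - p` is even. -/
def Tree : Prop := ∀ (r s : ℕ) (H : ℤ → ℤ → ZMod 2) (α β γ : ZMod 2), 1 ≤ r → 1 ≤ s → Sym (r + 1) (s + 1) H →
  (∀ (x : ZMod (2 ^ r)) (y : ZMod (2 ^ s)), edgeF 1 1 0 0 1 H x y = α * (par x * par y) + β * par x + γ * par y) →
  ∀ p q : ℤ, IsCoprime p q →
    (Even p → Odd q → H p q = H 1 0 + α * (((q ^ 2 - 1) / 8 : ℤ) : ZMod 2) + β * ((p / 2 : ℤ) : ZMod 2)) ∧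
    (Odd p → Even q → H p q = H 1 0 + α * (((p ^ 2 - 1) / 8 : ℤ) : ZMod 2) + γ * ((q / 2 : ℤ) : ZMod 2))

/-- X3 (from NEG, TREE, EDG, PLA of CV). For a prime `l = 3` modulo `8` and a symbol `G` modulo 2 with `F1` of degree at most `3`: the value on the twisted path is `(L3 F1)(0,0)`. Proof. In `ZMod 2` the coefficient
`χ(a)` is `1` for `0 < a < l`, so `eXb` is the sum over `0 < a < l` of `G(ma, l) - G(1,0)`, `m = 2^(r+1)`; `G(m(l - a), l) = G(-ma, l)` (`(1 m; 0 1)` is in the group and fixes `∞`); so it is the sum over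
`0 < a ≤ (l-1)/2` of `H(ma, l) - H(1,0)`, `H = G + G∘*` (a symbol, `F1(H)(x,y) = F1(x,y) + F1(-x,-y)`, as `* g *` has coordinates `(-x,-y)`; see `M_E1`). By NEG and TREE each of the `(l-1)/2` (odd) terms is `α (l²-1)/8 + β (ma)/2 = α`
(`(l²-1)/8` is odd, `4 ∣ m`; `(ma, l)` is coprime). -/
def X3 : Prop := ∀ (l r s : ℕ) (G : ℤ → ℤ → ZMod 2) (F1 : Fn (2 ^ r) (2 ^ s)), l.Prime → l % 8 = 3 → 1 ≤ r → 1 ≤ s →
  Sym (r + 1) (s + 1) G → (∀ x y, F1 x y = edgeF 1 1 0 0 1 G x y) → F1 ∈ Wd 3 →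
  eXb l (2 ^ (r + 1)) G = ((L3 : Module.End (ZMod 2) (Fn (2 ^ r) (2 ^ s))) F1) 0 0

/-- The points `(u/u', v/v')` of the plane on the paths from `∞` to `2^(r+1) a/7`, `0 < a < 7`, along the edges `g{0,∞}`; see X7A. -/
def P7 : List (ℤ × ℤ × ℤ × ℤ) :=
  [(0, 1, -2, 7), (-1, -1, 2, 1), (-1, 7, 0, 1), (0, 1, 2, 7), (-1, 1, 2, -1), (1, 7, 0, 1),
   (0, 1, -1, 7), (-2, -1, 1, 1), (-2, 7, 0, 1), (0, 1, 1, 7), (-2, 1, 1, -1), (2, 7, 0, 1),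
   (0, 1, -3, 7), (-1, -1, 3, 5), (-1, 3, -2, 5), (-2, -3, 2, 3), (-2, 5, -1, 3), (-3, -5, 1, 1), (-3, 7, 0, 1),
   (0, 1, 3, 7), (-1, 1, 3, -5), (1, 3, 2, 5), (-2, 3, 2, -3), (2, 5, 1, 3), (-3, 5, 1, -1), (3, 7, 0, 1)]

/-- The sum of the values of a plane function at the points of `P7`. -/
def S7 {r s : ℕ} (F : Fn (2 ^ r) (2 ^ s)) : ZMod 2 :=
  (P7.map fun t : ℤ × ℤ × ℤ × ℤ => F ((t.1 : ZMod (2 ^ r)) * (t.2.1 : ZMod (2 ^ r))⁻¹)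
    ((t.2.2.1 : ZMod (2 ^ s)) * (t.2.2.2 : ZMod (2 ^ s))⁻¹)).sum

/-- X7A (from EDG, PLA of CV). `eXb 7` as a sum of values of `F1`, `m = 2^(r+1)`. Proof. In `ZMod 2` it is the sum over `0 < a < 7` of `G(ma, 7) - G(1, 0)`; for `j = ±1, ±2, ±3` there is one `a` with `7 ∣ 2^r a - j`; let
`n = (2^r a - j)/7`, so `7 n ≡ -j` modulo `2^r` and `(ma, 7) = A^n (2j, 7)`, `A^n = (1 2n; 0 1)`. The path from `2j/7` to `∞` consists of edges `h{0,∞}` with `h = (a 2b; 2c d)` one of (written `a, b, c, d`), `j = 1`: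
`-1 1 -2 7`, `1 0 2 1`, `1 0 0 1`; `j = 2`: `-1 2 -1 7`, `1 0 1 1`, `1 0 0 1`; `j = 3`: `-5 3 -3 7`, `5 2 3 5`, `-3 2 -2 5`, `3 1 2 3`, `-1 1 -1 3`, `1 0 1 1`, `1 0 0 1`; for `-j` change the signs of `b` and `c` (in `P7` some `h` have the opposite sign).
`g = A^n h` has the coordinates `x = (b + n d)/(a + 4 n c) = (7b - j d)/(7a - 4 j c)` (as `7n = -j` in `ZMod (2^r)`), `y = c/d`: the entries of `P7`. By EDG `F1(x, y)` is the difference of `G` at `g ∞`, `g 0`; signs do not matter. -/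
def X7A : Prop := ∀ (r s : ℕ) (G : ℤ → ℤ → ZMod 2) (F1 : Fn (2 ^ r) (2 ^ s)), Sym (r + 1) (s + 1) G →
  (∀ x y, F1 x y = edgeF 1 1 0 0 1 G x y) → eXb 7 (2 ^ (r + 1)) G = S7 F1

/-- X7B (from BB, `hBb` of CV). For `F` of degree at most `7`: `S7 F = (L3 L5 F)(0,0)`, the sum of the coefficients of `bb 4 3` and `bb 3 4`. Proof. `F` is the sum of `c_ij bb i j`, `i + j ≤ 7`, `i < 2^r`, `j < 2^s`. For `i < 8`, `i < 2^r`
and `x = u/u'` (`u'` odd) `C(x.val, i) ≡ C((u u') % 8, i)` modulo `2` (for `i < 2^t` the parity of `C(n, i)` depends only on `n` modulo `2^t`; `u'⁻¹ ≡ u'` modulo `8`). So `S7 (bb i j)` is a sum of `26` products of binomial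
coefficients, `decide`: for `i + j ≤ 7` it is odd exactly for `(4,3)`, `(3,4)`. `L3 * L5 = dx^4 dy^3 + dx^3 dy^4`; `dx^i = 0` if `i ≥ 2^r`. -/
def X7B : Prop := ∀ (r s : ℕ) (F : Fn (2 ^ r) (2 ^ s)), F ∈ Wd 7 →
  S7 F = ((L3 * L5 : Module.End (ZMod 2) (Fn (2 ^ r) (2 ^ s))) F) 0 0

/-- ITRT (from X3, X7A, X7B and the iteration of CV: `Pool.Agent.Helper92.CV.iter5`, `iter3`, `low_L3`, `low_L5`, `eq_of_add_zero` in module `M_Itr`, with the arguments `hRel`, `hHkB`, `hHk3`, `hHk5`, `hLow0`, `hLd3`, `hLd5` of CV).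
`m = 2^(r+1)`. With `h = T_3^i T_5^j G`: `F1(h) ∈ Wd (d - 3i - 4j)`, `F1(h) ≡ L3^i L5^j F1` modulo `Wd (d - 3i - 4j - 1)`, and `eXb l m h = (L3 L5^(sh l) F1(h))(0,0)` if `F1(h)` has degree at most `3 + 4 sh l`. -/
def ItrT : Prop := ∀ (l r s : ℕ) (G : ℤ → ℤ → ZMod 2) (F1 : Fn (2 ^ r) (2 ^ s)) (d : ℕ), Okl l → 1 ≤ r → 1 ≤ s → 3 ≤ r + s →
  Sym (r + 1) (s + 1) G → (∀ x y, F1 x y = edgeF 1 1 0 0 1 G x y) → F1 ∈ Wd (d : ℤ) → ∀ i j : ℕ,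
  (d < 3 * (i + 1) + 4 * (j + sh l) → evXb l (2 ^ (r + 1)) G i j = 0) ∧
  (3 * (i + 1) + 4 * (j + sh l) = d → evXb l (2 ^ (r + 1)) G i j =
    ((L3 ^ (i + 1) * L5 ^ (j + sh l) : Module.End (ZMod 2) (Fn (2 ^ r) (2 ^ s))) F1) 0 0)

/-- TRIT (from ITRT, EX, LOW0, BB, LED of CV). Model: `Pool.Agent.Helper69.CV.hTri`, module `M_Tri` (the same symbols, the same leading forms; only `StItr` is replaced by ITRT). -/
def TriT : Prop := ∀ (l r s i' j' : ℕ), Okl l → 1 ≤ s → 3 ≤ r + s → 1 ≤ i' → sh l ≤ j' → 2 * i' + 2 * j' + 1 < 2 ^ r → i' + 2 * j' < 2 ^ s →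
  ∃ G : ℤ → ℤ → ZMod 2, Sym (r + 1) (s + 1) G ∧ evXb l (2 ^ (r + 1)) G (i' - 1) (j' - sh l) = 1 ∧
    ∀ i j : ℕ, evXb l (2 ^ (r + 1)) G i j ≠ 0 →
      (3 * (i + 1) + 4 * (j + sh l) < 3 * i' + 4 * j' ∨
        (3 * (i + 1) + 4 * (j + sh l) = 3 * i' + 4 * j' ∧ (i + 1) + 2 * (j + sh l) ≤ i' + 2 * j'))

/-- LIFT. Lifting symbols (as `StLif`, model `M_Lif`: REL, LIFP, EX over `ℤ`, UNI): the lift reduces to `g` up to a constant, so it has the same twisted values modulo 2 (`Tl` and `eXb` commute with the reduction,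
`EqC.Tl_iter`, the sum in `eXb` has differences). -/
def LifT : Prop := ∀ (r s : ℕ) (g : ℤ → ℤ → ZMod 2), Sym (r + 1) (s + 1) g →
  ∃ G : ℤ → ℤ → ℤ, Sym (r + 1) (s + 1) G ∧ EqC (fun p q => ((G p q : ℤ) : ZMod 2)) g ∧
    ∀ l i j : ℕ, l ≠ 0 → ((evXb l (2 ^ (r + 1)) G i j : ℤ) : ZMod 2) = evXb l (2 ^ (r + 1)) g i j

/-- UNBT. Back to `Γ₀(2^n)` (as `StUnb`, model `M_Unb`). -/
def UnbT : Prop := ∀ (l r s : ℕ) (G : ℤ → ℤ → ℤ), l ≠ 0 → Sym r s G →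
  Sym 0 (r + s) (fun p q => ((G (2 ^ r * p) q : ℤ) : ℂ)) ∧
    ∀ i j : ℕ, evX l (fun p q => ((G (2 ^ r * p) q : ℤ) : ℂ)) i j = ((evXb l (2 ^ r) G i j : ℤ) : ℂ)

/-- CNTT. Counting the index set (model `M_Cnt`). With `b = 2^(k-3)`, `a = 2^(k-2)`: `DT l (2k) = DD (2k) - 2^(k-2)`, `DT l (2k+1) = DD (2k+1) - 2^(k-2)` for `l = 3` modulo `8`; for `l = 7`: `DT 7 n` is the number of `(i, j)` with `i, j ≥ 1` (values `0, 0, 1, 3, 9, 21, 49` for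
`n = 5, ..., 11`; for `l = 3` modulo `8`: `1, 1, 4, 6, 16, 28, 64`). -/
def CntT : Prop :=
  (∀ l k : ℕ, Okl l → 3 ≤ k → ((Finset.range (2 ^ k) ×ˢ Finset.range (2 ^ k)).filter fun t : ℕ × ℕ =>
    2 * t.1 + 2 * t.2 + 1 < 2 ^ (k - 1) ∧ t.1 + 2 * t.2 < 2 ^ (k - 1) ∧ 1 ≤ t.1 ∧ sh l ≤ t.2).card = DT l (2 * k)) ∧
  (∀ l k : ℕ, Okl l → 2 ≤ k → ((Finset.range (2 ^ (k + 1)) ×ˢ Finset.range (2 ^ (k + 1))).filter
    fun t : ℕ × ℕ => 2 * t.1 + 2 * t.2 + 1 < 2 ^ k ∧ t.1 + 2 * t.2 < 2 ^ (k - 1) ∧ 1 ≤ t.1 ∧ sh l ≤ t.2).card =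
    DT l (2 * k + 1))

/-- LBTOF. LBT from TRIT, LIFT, UNBT, CNTT, as `StLBof` (model `M_LBof`): matrix `M (κ, (i,j)) = evXb G_κ (i-1) (j - sh l)`, `κ`, `(i,j)` in the index set of CNTT, `(r,s) = (k-1,k-1)` for `n = 2k`, `(k,k-1)` for `n = 2k+1`. -/
def LBTof : Prop := TriT → LifT → UnbT → CntT → LBT

end Pool.Agent.Helper14.TT
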