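import Pool.Agent.Helper14.TT.Defs

/-!
# Project TT: upper bound for new symbols, general signs `W = -w`, `* = ε`

These are the modules BAL, E1, DIME, O1, RMAP, DIMO, DIMF, KERO, UB of project CV (statements in
`Pool/Agent/Helper14/CV/StC.lean`, models `Pool/Agent/Helper*/CV/M_*.lean`, which is the case `w = ε = 1`)
with signs; `PlA`, `PlU`, `Edg`, `Far` are not changed and are used as they are.
-/

set_option autoImplicit false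

namespace Pool.Agent.Helper14.TT

open Pool.Agent.Helper14.CV
open Pool.Agent.Helper76.TX (RootNum eX evX NewSymS NSS BalES BalOS antiES antiOS antiFS Sg)

/-- BALS. Transport to the balanced form (model `Pool.Agent.Helper82.CV.hBal`, module `M_Bal`). -/
def BalS : Prop := ∀ (w ε : ℤ) (k : ℕ) (G : ℤ → ℤ → ℂ), 1 ≤ k →
  (NewSymS (2 * k) w ε G → BalES k w ε (act 1 0 0 (2 ^ k) G)) ∧
  (NewSymS (2 * k + 1) w ε G → BalOS k w ε (act 1 0 0 (2 ^ k) G)) ∧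
  (Homog G → EqC (act 1 0 0 (2 ^ k) G) 0 → EqC G 0)

/-- E1S. Even exponent, `k ≥ 2` (model: module `M_E1`, `StE1`). `Ξ = edgeF 1 1 1 (-1) 1 G` (path from `g(-1)` to `g(1)`) lies in
`antiES k w (-ε)`: `S g S⁻¹` has coordinates `(-y, -x)` and maps the path to `S g (1 → -1)`, and `G∘S ≈ -w G`, so
`Ξ(-y,-x) = w Ξ(x,y)`; `* g *` has `(-x, -y)` and maps it to `* g (1 → -1)`, `G∘* ≈ ε G`: `Ξ(-x,-y) = -ε Ξ`. The injectivity part
does not use the signs. -/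
def E1S : Prop := ∀ (w ε : ℤ) (k : ℕ) (G : ℤ → ℤ → ℂ), Sg w → Sg ε → 2 ≤ k → BalES k w ε G →
  (fun (x : ZMod (2 ^ (k - 1))) (y : ZMod (2 ^ (k - 1))) => edgeF 1 1 1 (-1) 1 G x y) ∈ antiES k w (-ε) ∧
  ((∀ (x : ZMod (2 ^ (k - 1))) (y : ZMod (2 ^ (k - 1))), edgeF 1 1 1 (-1) 1 G x y = 0) → EqC G 0)

/-- DIMES. Fixed points as in `StDimE` (model `M_DimE`), `Q = 2^(k-2)`, `k ≥ 3`: group of order 16, identity `4Q²`, `-1` composed with the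
translations: sum `0`, swap (sign `σ τ`): `4Q σ τ`, antiswap (sign `σ`): `4Q σ`. -/
def DimES : Prop := ∀ (σ τ : ℤ) (k : ℕ), Sg σ → Sg τ → 3 ≤ k →
  4 * (Module.finrank ℂ (antiES k σ τ) : ℤ) = 4 ^ (k - 2) + 2 ^ (k - 2) * (σ * (1 + τ))

/-- E2. For `k = 2` functions in `antiES 2 σ 1` vanish if `σ = -1` (`F 0 0 = F (-0) (-0) = σ F 0 0`, antiperiodic with period `1`). -/
def DimE2 : Prop := ∀ F ∈ antiES 2 (-1) 1, F = 0

/-- O1S. Odd exponent, `k ≥ 1` (model: module `M_O1`, `StO1`). `f = edgeF 0 1 0 0 1 G`: `W g W⁻¹`, `W = (0 -1; 2 0)`, has coordinates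
`(-y, -x)` and exchanges the ends, `G∘W ≈ -w G`: `f(-y,-x) = w f(x,y)`; `f(-x,-y) = ε f(x,y)`; so `f(y,x) = w ε f(x,y)`. The rest does not use
the signs. -/
def O1S : Prop := ∀ (w ε : ℤ) (k : ℕ) (G : ℤ → ℤ → ℂ), Sg w → Sg ε → 1 ≤ k → BalOS k w ε G →
  (fun (x : ZMod (2 ^ k)) (y : ZMod (2 ^ k)) => edgeF 0 1 0 0 1 G x y) ∈ antiOS k (w * ε) ε ∧
  Rq k (fun (x : ZMod (2 ^ k)) (y : ZMod (2 ^ k)) => edgeF 0 1 0 0 1 G x y) = 0 ∧
  ((∀ (x : ZMod (2 ^ k)) (y : ZMod (2 ^ k)), edgeF 0 1 0 0 1 G x y = 0) → EqC G 0)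

/-- RMAPS. `R` maps `antiOS k η ε` onto `antiFS k η ε` (`k ≥ 2`). Model `M_Rmap` (`StRmap`): `R(f∘swap) = (R f)∘swap`, `R(f∘neg) = -(R f)∘ρ`,
`ρ(x,y) = (-x-1, -y/(1+2y))`; for `F` in `antiFS` both `ρ` and `ρ' = swap ρ swap` multiply `F` by `-ε`, so `F∘v = F`; `f0 = -(1/4) ∑_{i<h} T^i F`,
`h = 2^(k-1)`, satisfies `R f0 = F`, and the average of `f0`, `ε f0∘neg`, `η f0∘swap`, `ε η f0∘neg∘swap` lies in `antiOS k η ε` and is mapped to `F`. -/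
def RmapS : Prop := ∀ (η ε : ℤ) (k : ℕ), Sg η → Sg ε → 2 ≤ k →
  (antiOS k η ε).map (Rq k) = antiFS k η ε

/-- DIMOS. Fixed points as in `StDimO` (model `M_DimO`), `Q = 2^(k-1)`, `k ≥ 2`: `(4Q² + 4Q η + 4Q η ε)/16`. -/
def DimOS : Prop := ∀ (η ε : ℤ) (k : ℕ), Sg η → Sg ε → 2 ≤ k →
  4 * (Module.finrank ℂ (antiOS k η ε) : ℤ) = 4 ^ (k - 1) + 2 ^ (k - 1) * (η * (1 + ε))

/-- DIMFS. As in `StDimF` (model `M_DimF`), `Q = 2^(k-1)`: `(4Q² + 8Q η)/32`; `ρ` and the two elements of order `4` have no fixed points, `v` (sign `1`)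
composed with the swap has sign `η`. -/
def DimFS : Prop := ∀ (η ε : ℤ) (k : ℕ), Sg η → Sg ε → 2 ≤ k →
  8 * (Module.finrank ℂ (antiFS k η ε) : ℤ) = 4 ^ (k - 1) + 2 ^ (k - 1) * (2 * η)

/-- KEROS (from RMAPS, DIMOS, DIMFS by rank-nullity, model `M_KerO`). -/
def KerOS : Prop := ∀ (η ε : ℤ) (k : ℕ), Sg η → Sg ε → 2 ≤ k →
  8 * (Module.finrank ℂ ↥(antiOS k η ε ⊓ LinearMap.ker (Rq k)) : ℤ) =
    4 ^ (k - 1) + 2 ^ (k - 1) * (2 * (η * ε))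

/-- O2. For `k = 1` functions in `antiOS 1 η (-1)` vanish (`F 0 0 = F (-0) (-0) = -F 0 0`, antiperiodic with period `1`). -/
def DimO2 : Prop := ∀ (η : ℤ), ∀ F ∈ antiOS 1 η (-1), F = 0

/-- UBT. The space of new symbols (`W = -w`, `* = -1`) modulo constants has dimension at most `dT w n`. -/
def UBT : Prop := ∀ (w : ℤ) (n : ℕ), 3 ≤ n → (w = -1 ∨ (w = 1 ∧ n % 2 = 1)) →
  ∃ Θ : NSS n w (-1) →ₗ[ℂ] (Fin (dT w n) → ℂ), ∀ G : NSS n w (-1), Θ G = 0 → EqC (G : ℤ → ℤ → ℂ) 0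

/-- UBT from BALS, E1S (`w = -1`, `ε = -1`, target `antiES k (-1) 1`, dimension `b(b-1)`, `b = 2^(k-3)`, for `n = 2k ≥ 6`; E2 for `n = 4`), O1S (`ε = -1`,
target `antiOS k (-w) (-1) ⊓ ker R`, dimension `a(a+w)/2`, `a = 2^(k-2)`, for `n = 2k+1 ≥ 5`; O2 for `n = 3`). Model `M_UBof`. -/
def UBTof : Prop := BalS → E1S → DimES → DimE2 → O1S → KerOS → DimO2 → UBT

end Pool.Agent.Helper14.TT
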